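import Pool.Agent.Helper8.UN.Stmts

/-! # Adding one vertex -/

set_option autoImplicit false

open Finset

namespace Pool.Agent.Helper8.UN

open scoped Classical in
theorem cnt_bk {n : ℕ} (E : Finset (Finset (Fin n))) (W : Finset (Fin n)) (k : ℕ)
    (f : Fin n → ℕ) (v : Fin n) :
    ((Finset.Icc 1 k).filter (fun i => ¬ Blk E W f v i)).card = k - bk E W k f v := by
  have h := Finset.card_filter_add_card_filter_not (s := Finset.Icc 1 k)
    (fun i => Blk E W f v i)
  rw [Nat.card_Icc] at h
  unfold bk
  omega

theorem cnt_inj {n : ℕ} (f : Fin n → ℕ) (v : Fin n) :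
    Function.Injective (fun i : ℕ => Function.update f v i) :=
  Function.update_injective f v

theorem cnt_zero {n : ℕ} (E : Finset (Finset (Fin n))) (W : Finset (Fin n)) (k : ℕ)
    (f : Fin n → ℕ) (v : Fin n) (hf : f ∈ CC E (W.erase v) k) : f v = 0 := by
  classical
  unfold CC at hf
  rw [Finset.mem_filter, Fintype.mem_piFinset] at hf
  have h := hf.1 v
  rw [if_neg (Finset.notMem_erase v W)] at h
  exact Finset.mem_singleton.1 h

open scoped Classical in
theorem st_CNT (h1 : ST_UPC) (h2 : ST_UPS) : ST_CNT := by
  intro n k E W v hE hv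
  constructor
  · have hmaps : ∀ g ∈ CC E W k, Function.update g v 0 ∈ CC E (W.erase v) k := by
      intro g hg
      exact (h1 n k E W g v 0 hE hv).2 hg
    unfold PP
    rw [Finset.card_eq_sum_card_fiberwise hmaps]
    apply Finset.sum_congr rfl
    intro f hf
    rw [← cnt_bk, ← Finset.card_image_of_injective _ (cnt_inj f v)]
    congr 1
    ext g
    simp only [Finset.mem_filter, Finset.mem_image]
    constructor
    · rintro ⟨hg, hgf⟩
      have hgu : Function.update f v (g v) = g := by
        rw [← hgf, Function.update_idem, Function.update_eq_self]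
      have h3 := ((h1 n k E W f v (g v) hE hv).1 (Or.inr hf)).1 (by rw [hgu]; exact hg)
      exact ⟨g v, h3, hgu⟩
    · rintro ⟨i, hi, rfl⟩
      refine ⟨((h1 n k E W f v i hE hv).1 (Or.inr hf)).2 hi, ?_⟩
      rw [Function.update_idem, ← cnt_zero E W k f v hf, Function.update_eq_self]
  · unfold AA
    have hsub : ∀ f ∈ SS E (W.erase v) k, f ∈ CC E (W.erase v) k := by
      intro f hf
      simp only [SS, Finset.mem_filter] at hf
      exact hf.1
    have hcard : ∀ f ∈ SS E (W.erase v) k, k - bk E W k f v =
        (((Finset.Icc 1 k).filter (fun i => ¬ Blk E W f v i)).image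
          (fun i => Function.update f v i)).card := by
      intro f _
      rw [Finset.card_image_of_injective _ (cnt_inj f v), cnt_bk]
    rw [Finset.sum_congr rfl hcard, ← Finset.card_biUnion]
    · apply Finset.card_le_card
      intro g hg
      rw [Finset.mem_biUnion] at hg
      obtain ⟨f, hf, hgf⟩ := hg
      rw [Finset.mem_image] at hgf
      obtain ⟨i, hi, rfl⟩ := hgf
      exact ((h2 n k E W f v i hE hv).2.2 hf).2 (Finset.mem_filter.1 hi)
    · intro f hf f' hf' hne
      rw [Function.onFun, Finset.disjoint_left]
      intro g hg hg'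
      rw [Finset.mem_image] at hg hg'
      obtain ⟨i, _, rfl⟩ := hg
      obtain ⟨i', _, hi'⟩ := hg'
      apply hne
      have h3 : Function.update (Function.update f v i) v 0 = f := by
        rw [Function.update_idem, ← cnt_zero E W k f v (hsub f hf), Function.update_eq_self]
      have h4 : Function.update (Function.update f' v i') v 0 = f' := by
        rw [Function.update_idem, ← cnt_zero E W k f' v (hsub f' hf'), Function.update_eq_self]
      rw [← h3, ← h4]
      simp only [hi']

end Pool.Agent.Helper8.UN
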